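import Pool.Agent.H568.SP.Asym

set_option autoImplicit false

/-! # From character sums to the number of split primes -/

namespace Pool.Agent.H568.SP

open Finset Filter Real

/-- splitting of odd primes -/
theorem split_iff {p : ℕ} (hp : p.Prime) (hp2 : p ≠ 2) {d : ℤ} (hd : d % 4 = 0 ∨ d % 4 = 1) :
    (¬ (p : ℤ) ∣ d ∧ ∃ x : ℤ, (4 * (p : ℤ)) ∣ x ^ 2 - d) ↔ jacobiSym d p = 1 := by
  haveI : Fact p.Prime := ⟨hp⟩
  rw [← jacobiSym.legendreSym.to_jacobiSym]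
  constructor
  · rintro ⟨h1, x, hx⟩
    have h2 : (d : ZMod p) ≠ 0 := by
      intro h
      exact h1 ((ZMod.intCast_zmod_eq_zero_iff_dvd d p).1 h)
    rw [legendreSym.eq_one_iff p h2]
    have h3 : (p : ℤ) ∣ x ^ 2 - d := (Dvd.intro_left 4 rfl).trans hx
    have h4 : ((x ^ 2 - d : ℤ) : ZMod p) = 0 := (ZMod.intCast_zmod_eq_zero_iff_dvd _ p).2 h3
    refine ⟨(x : ZMod p), ?_⟩
    push_cast at h4
    linear_combination -h4
  · intro h
    have h2 : (d : ZMod p) ≠ 0 := by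
      intro h0
      rw [(legendreSym.eq_zero_iff p d).2 h0] at h
      norm_num at h
    refine ⟨fun h1 => h2 ((ZMod.intCast_zmod_eq_zero_iff_dvd d p).2 h1), ?_⟩
    rw [legendreSym.eq_one_iff p h2] at h
    obtain ⟨r, hr⟩ := h
    obtain ⟨y, rfl⟩ := ZMod.intCast_surjective r
    have h3 : (p : ℤ) ∣ y ^ 2 - d := by
      rw [← ZMod.intCast_zmod_eq_zero_iff_dvd]
      push_cast
      rw [hr]
      ring
    have hpodd : (p : ℤ) % 2 = 1 := by
      have := hp.eq_two_or_odd.resolve_left hp2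
      omega
    have hcop : IsCoprime (4 : ℤ) (p : ℤ) := by
      have h5 : Nat.Coprime 4 p := by
        have : Nat.Coprime 2 p := (Nat.coprime_primes Nat.prime_two hp).2 (Ne.symm hp2)
        exact Nat.Coprime.pow_left 2 this
      exact_mod_cast Nat.isCoprime_iff_coprime.2 h5
    have key : ∀ x : ℤ, (p : ℤ) ∣ x ^ 2 - d → (4 : ℤ) ∣ x ^ 2 - d → (4 * (p : ℤ)) ∣ x ^ 2 - d :=
      fun x a1 a2 => hcop.mul_dvd a2 a1
    have hyp : (p : ℤ) ∣ (y + p) ^ 2 - d := by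
      have : (y + p) ^ 2 - d = (y ^ 2 - d) + p * (2 * y + p) := by ring
      rw [this]
      exact dvd_add h3 (Dvd.intro _ rfl)
    have par0 : ∀ x : ℤ, x % 2 = 0 → x ^ 2 % 4 = 0 := by
      intro x hx
      obtain ⟨z, rfl⟩ : ∃ z, x = 2 * z := ⟨x / 2, by omega⟩
      have : (2 * z) ^ 2 = 4 * (z ^ 2) := by ring
      omega
    have par1 : ∀ x : ℤ, x % 2 = 1 → x ^ 2 % 4 = 1 := by
      intro x hx
      obtain ⟨z, rfl⟩ : ∃ z, x = 2 * z + 1 := ⟨x / 2, by omega⟩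
      have : (2 * z + 1) ^ 2 = 4 * (z ^ 2 + z) + 1 := by ring
      omega
    rcases hd with hd | hd <;> rcases Int.emod_two_eq_zero_or_one y with hy | hy
    · exact ⟨y, key y h3 (by have := par0 y hy; omega)⟩
    · exact ⟨y + p, key _ hyp (by have := par0 (y + p) (by omega); omega)⟩
    · exact ⟨y + p, key _ hyp (by have := par1 (y + p) (by omega); omega)⟩
    · exact ⟨y, key y h3 (by have := par1 y hy; omega)⟩

/-- number of odd primes which divide `d` -/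
theorem card_zero_le (d : ℤ) (hd0 : d ≠ 0) (S : Finset ℕ) (hS : ∀ p ∈ S, p.Prime)
    (hz : ∀ p ∈ S, jacobiSym d p = 0) : (S.card : ℝ) ≤ 2 * log |(d : ℝ)| := by
  have h1 : ∀ p ∈ S, p ∣ d.natAbs := by
    intro p hp
    have hpr := hS p hp
    haveI : NeZero p := ⟨hpr.ne_zero⟩
    have h2 := hz p hp
    rw [jacobiSym.eq_zero_iff_not_coprime] at h2
    by_contra h3
    apply h2
    have h4 := (Nat.Prime.coprime_iff_not_dvd hpr).2 h3
    rw [Int.gcd, Int.natAbs_natCast]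
    exact h4.symm
  have h2 : ∏ p ∈ S, p ∣ d.natAbs := Finset.prod_primes_dvd _ (fun p hp => (hS p hp).prime) h1
  have h3 : 2 ^ S.card ≤ d.natAbs := by
    refine le_trans ?_ (Nat.le_of_dvd (Int.natAbs_pos.2 hd0) h2)
    rw [← Finset.prod_const]
    exact Finset.prod_le_prod' fun p hp => (hS p hp).two_le
  have h4 : ((2 : ℝ) ^ S.card) ≤ |(d : ℝ)| := by
    have e : ((d.natAbs : ℕ) : ℝ) = |(d : ℝ)| := by rw [Nat.cast_natAbs, Int.cast_abs]
    rw [← e]
    exact_mod_cast h3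
  have h5 := log_le_log (by positivity) h4
  rw [log_pow] at h5
  have h6 : 0.69 < log 2 := by have := log_two_gt_d9; linarith
  have h7 : (0 : ℝ) ≤ S.card := Nat.cast_nonneg _
  nlinarith

theorem card_diff_le {Y0 Y : ℝ} (hY0 : 0 ≤ Y0) (hY : Y0 ≤ Y) :
    ((PPf Y \ PPf Y0).card : ℝ) ≤ Y - Y0 + 1 := by
  have h1 : PPf Y \ PPf Y0 ⊆ Ico ⌈Y0⌉₊ ⌈Y⌉₊ := by
    intro p hp
    rw [Finset.mem_sdiff, mem_PPf, mem_PPf] at hp
    rw [mem_Ico, Nat.ceil_le, Nat.lt_ceil]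
    refine ⟨?_, hp.1.1⟩
    by_contra h
    exact hp.2 ⟨not_le.1 h, hp.1.2⟩
  have h2 := card_le_card h1
  rw [Nat.card_Ico] at h2
  have h3 : ⌈Y0⌉₊ ≤ ⌈Y⌉₊ := Nat.ceil_mono hY
  have h4 : ((PPf Y \ PPf Y0).card : ℝ) ≤ (⌈Y⌉₊ : ℝ) - ⌈Y0⌉₊ := by
    rw [← Nat.cast_sub h3]
    exact_mod_cast h2
  have h5 := Nat.ceil_lt_add_one (hY0.trans hY)
  have h6 := Nat.le_ceil Y0
  linarith

theorem local_bound (d : ℤ) (hd : d % 4 = 0 ∨ d % 4 = 1) (hd0 : d ≠ 0) {Y0 Y ε : ℝ}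
    (hY0 : 0 ≤ Y0) (hY : Y0 ≤ Y) (hY2 : 2 < Y) (hε : 0 < ε)
    (hsum : |∑ p ∈ PPf Y0, ((jacobiSym d p : ℤ) : ℝ)| < ε * ((PPf Y0).card : ℝ))
    (hR : 2 * log |(d : ℝ)| + 2 + (Y - Y0) ≤ ε * ((PPf Y0).card : ℝ)) :
    |(Set.ncard {p : ℕ | p.Prime ∧ (p : ℝ) < Y ∧ ¬ (p : ℤ) ∣ d ∧
        ∃ x : ℤ, (4 * (p : ℤ)) ∣ x ^ 2 - d} : ℝ) -
      (Set.ncard {p : ℕ | p.Prime ∧ (p : ℝ) < Y} : ℝ) / 2| ≤
      ε * (Set.ncard {p : ℕ | p.Prime ∧ (p : ℝ) < Y} : ℝ) := by
  classical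
  set T := (PPf Y).filter fun p => jacobiSym d p = 1 with hT
  set Z := (PPf Y).filter fun p => jacobiSym d p = 0 with hZ
  have hall : {p : ℕ | p.Prime ∧ (p : ℝ) < Y} = ((insert 2 (PPf Y) : Finset ℕ) : Set ℕ) := by
    ext p
    rw [Set.mem_ofPred_eq, mem_coe, mem_insert, mem_PPf]
    constructor
    · rintro ⟨h1, h2⟩
      by_cases h : p = 2
      · exact Or.inl h
      · exact Or.inr ⟨h2, h1, h⟩
    · rintro (rfl | ⟨h1, h2, _⟩)
      · exact ⟨Nat.prime_two, by exact_mod_cast hY2⟩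
      · exact ⟨h2, h1⟩
  have hallc : (Set.ncard {p : ℕ | p.Prime ∧ (p : ℝ) < Y} : ℝ) = (PPf Y).card + 1 := by
    rw [hall, Set.ncard_coe_finset, card_insert_of_notMem]
    · push_cast
      ring
    · rw [mem_PPf]
      simp
  set S := {p : ℕ | p.Prime ∧ (p : ℝ) < Y ∧ ¬ (p : ℤ) ∣ d ∧ ∃ x : ℤ, (4 * (p : ℤ)) ∣ x ^ 2 - d}
    with hS
  have hS1 : (T : Set ℕ) ⊆ S := by
    intro p hp
    rw [mem_coe, hT, mem_filter, mem_PPf] at hp
    obtain ⟨⟨h1, h2, h3⟩, h4⟩ := hp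
    have h5 := (split_iff h2 h3 hd).2 h4
    exact ⟨h2, h1, h5.1, h5.2⟩
  have hS2 : S ⊆ ((insert 2 T : Finset ℕ) : Set ℕ) := by
    intro p hp
    obtain ⟨h1, h2, h3, h4⟩ := hp
    rw [mem_coe, mem_insert]
    by_cases h : p = 2
    · exact Or.inl h
    · right
      rw [hT, mem_filter, mem_PPf]
      exact ⟨⟨h2, h1, h⟩, (split_iff h1 h hd).1 ⟨h3, h4⟩⟩
  have hSfin : S.Finite := (finite_toSet _).subset hS2
  have hN1 : T.card ≤ S.ncard := by
    rw [← Set.ncard_coe_finset]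
    exact Set.ncard_le_ncard hS1 hSfin
  have hN2 : S.ncard ≤ T.card + 1 := by
    refine (Set.ncard_le_ncard hS2 (finite_toSet _)).trans ?_
    rw [Set.ncard_coe_finset]
    exact card_insert_le _ _
  have hsum2 : 2 * (T.card : ℝ) = (PPf Y).card + ∑ p ∈ PPf Y, ((jacobiSym d p : ℤ) : ℝ) - Z.card := by
    rw [hT, hZ, card_filter, card_filter, card_eq_sum_ones]
    push_cast
    rw [mul_sum, ← sum_add_distrib, ← sum_sub_distrib]
    refine sum_congr rfl fun p _ => ?_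
    rcases jacobiSym.trichotomy d p with h | h | h
    · simp [h]
    · simp [h]; norm_num
    · simp [h]
  have hdiff : |∑ p ∈ PPf Y, ((jacobiSym d p : ℤ) : ℝ)| ≤
      |∑ p ∈ PPf Y0, ((jacobiSym d p : ℤ) : ℝ)| + (Y - Y0 + 1) := by
    rw [← sum_sdiff (PPf_mono hY), add_comm]
    refine (abs_add_le _ _).trans ?_
    gcongr
    refine (abs_sum_le_sum_abs _ _).trans ?_
    refine le_trans ?_ (card_diff_le hY0 hY)
    calc ∑ p ∈ PPf Y \ PPf Y0, |((jacobiSym d p : ℤ) : ℝ)| ≤ ∑ _p ∈ PPf Y \ PPf Y0, (1 : ℝ) :=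
          sum_le_sum fun p _ => jac_abs_le _ _
      _ = ((PPf Y \ PPf Y0).card : ℝ) := by simp
  have hZc : (Z.card : ℝ) ≤ 2 * log |(d : ℝ)| :=
    card_zero_le d hd0 Z (fun p hp => by
      rw [hZ, mem_filter, mem_PPf] at hp
      exact hp.1.2.1) (fun p hp => by
      rw [hZ, mem_filter] at hp
      exact hp.2)
  have hP : ((PPf Y0).card : ℝ) ≤ (PPf Y).card := by exact_mod_cast card_le_card (PPf_mono hY)
  rw [hallc]
  have a1 : (T.card : ℝ) ≤ S.ncard := by exact_mod_cast hN1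
  have a2 : (S.ncard : ℝ) ≤ T.card + 1 := by exact_mod_cast hN2
  have a3 : (0 : ℝ) ≤ Z.card := Nat.cast_nonneg _
  have a4 := abs_le.1 (hdiff)
  have a5 : ε * ((PPf Y0).card : ℝ) ≤ ε * ((PPf Y).card + 1) := by
    apply mul_le_mul_of_nonneg_left _ hε.le
    linarith
  rw [abs_le]
  constructor <;> linarith [a4.1, a4.2]

theorem Yf_mono {A b t s : ℝ} (hA : 0 ≤ A) (hb : 0 ≤ b) (ht : 0 < t) (hl : 0 ≤ log t) (hs : t ≤ s) :
    Yf A b t ≤ Yf A b s := by
  unfold Yf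
  have h1 : log t ≤ log s := log_le_log ht hs
  exact mul_le_mul (rpow_le_rpow ht.le hs hA) (rpow_le_rpow hl h1 hb) (by positivity)
    (rpow_nonneg (ht.le.trans hs) _)

theorem Yf_succ {A b t s : ℝ} (hA : 0 ≤ A) (hb : 0 ≤ b) (ht : 0 < t) (hl : 1 ≤ log t)
    (hts : t ≤ s) (hs : s ≤ t + 1) (hAb : (A + b) / t ≤ 1 / 2) :
    Yf A b s - Yf A b t ≤ 2 * (A + b) / t * Yf A b t := by
  have hs0 : 0 < s := by linarith
  have hlt0 : 0 < log t := by linarith
  have hls0 : 0 < log s := lt_of_lt_of_le hlt0 (log_le_log ht hts)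
  have h1 : s ≤ t * exp (1 / t) := by
    have h := add_one_le_exp (1 / t)
    have h2 : t * (1 / t + 1) = t + 1 := by field_simp; ring
    have h3 : t * (1 / t + 1) ≤ t * exp (1 / t) := mul_le_mul_of_nonneg_left h ht.le
    linarith
  have h2 : log s ≤ log t * exp (1 / t) := by
    have h3 := log_le_log hs0 h1
    rw [log_mul ht.ne' (exp_pos _).ne', log_exp] at h3
    have h := add_one_le_exp (1 / t)
    have h4 : 0 ≤ 1 / t := by positivity
    have h5 : log t * (1 / t + 1) ≤ log t * exp (1 / t) := mul_le_mul_of_nonneg_left h hlt0.le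
    nlinarith
  have h3 : Yf A b s ≤ Yf A b t * exp ((A + b) / t) := by
    unfold Yf
    have c1 : s ^ A ≤ t ^ A * exp (A / t) := by
      calc s ^ A ≤ (t * exp (1 / t)) ^ A := rpow_le_rpow hs0.le h1 hA
        _ = t ^ A * exp (A / t) := by
            rw [mul_rpow ht.le (exp_pos _).le, ← exp_mul]
            congr 2
            ring
    have c2 : (log s) ^ b ≤ (log t) ^ b * exp (b / t) := by
      calc (log s) ^ b ≤ (log t * exp (1 / t)) ^ b := rpow_le_rpow hls0.le h2 hb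
        _ = (log t) ^ b * exp (b / t) := by
            rw [mul_rpow hlt0.le (exp_pos _).le, ← exp_mul]
            congr 2
            ring
    calc s ^ A * (log s) ^ b ≤ (t ^ A * exp (A / t)) * ((log t) ^ b * exp (b / t)) :=
          mul_le_mul c1 c2 (by positivity) (by positivity)
      _ = _ := by
          rw [add_div, exp_add]
          ring
  have hu0 : 0 ≤ (A + b) / t := by positivity
  have h4 : exp ((A + b) / t) ≤ 1 + 2 * ((A + b) / t) := by
    have h5 := Real.exp_bound_div_one_sub_of_interval hu0 (by linarith)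
    refine h5.trans ?_
    rw [div_le_iff₀ (by linarith)]
    nlinarith
  have h5 : 0 ≤ Yf A b t := by unfold Yf; positivity
  have h6 : Yf A b t * exp ((A + b) / t) ≤ Yf A b t * (1 + 2 * ((A + b) / t)) :=
    mul_le_mul_of_nonneg_left h4 h5
  have h7 : 2 * (A + b) / t * Yf A b t = Yf A b t * (2 * ((A + b) / t)) := by ring
  rw [h7]
  linarith

theorem ev_local (A b δ ε : ℝ) (hA : 1 < A) (hb : 0 ≤ b) (hδ : 0 < δ) (hδA : 3 * δ < A - 1)
    (hδ4 : δ ≤ 1 / 4) (hε : 0 < ε) : ∀ᶠ t : ℝ in atTop, ∀ s : ℝ, t ≤ s → s ≤ t + 1 →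
      0 ≤ Yf A b t ∧ Yf A b t ≤ Yf A b s ∧ 2 < Yf A b s ∧
      2 * s + 2 + (Yf A b s - Yf A b t) ≤ ε * ((PPf (Yf A b t)).card : ℝ) := by
  have e1 := ev_good A b δ ε hA hb hδ hδA hε
  have e2 := ev_rpow_le (4 * (A + b) / ε) (A + δ - 1) (A - δ) (by linarith)
  have e3 := ev_rpow_le (12 / ε) 1 (A - δ) (by linarith)
  filter_upwards [e1, e2, e3, eventually_ge_atTop 3, eventually_ge_atTop (2 * (A + b))] with
    t g a2 a3 a4 a5
  intro s hts hs
  have ht0 : 0 < t := by linarith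
  have hlt := g.lt1
  have hAb : (A + b) / t ≤ 1 / 2 := by
    rw [div_le_iff₀ ht0]
    linarith
  have hY0 : 0 ≤ Yf A b t := by
    have : 0 ≤ log t := by linarith
    unfold Yf
    positivity
  have hYt := Yf_mono (A := A) (b := b) (by linarith) hb ht0 (by linarith) hts
  refine ⟨hY0, hYt, ?_, ?_⟩
  · refine lt_of_lt_of_le ?_ hYt
    refine lt_of_lt_of_le ?_ (Yf_ge hb ht0.le hlt)
    have : t ^ (1 : ℝ) ≤ t ^ A := rpow_le_rpow_of_exponent_le (by linarith) hA.le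
    rw [rpow_one] at this
    linarith
  · have h1 := Yf_succ (A := A) (b := b) (by linarith) hb ht0 hlt hts hs hAb
    have h2 : 2 * (A + b) / t * Yf A b t ≤ ε / 2 * t ^ (A - δ) := by
      have h3 : Yf A b t ≤ t ^ (A + δ) := by linarith [g.Yhi]
      have h4 : t ^ (A + δ - 1) = t ^ (A + δ) / t := by
        rw [rpow_sub ht0, rpow_one]
      calc 2 * (A + b) / t * Yf A b t ≤ 2 * (A + b) / t * t ^ (A + δ) :=
            mul_le_mul_of_nonneg_left h3 (by positivity)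
        _ = ε / 2 * (4 * (A + b) / ε * t ^ (A + δ - 1)) := by
            rw [h4]
            field_simp
            ring
        _ ≤ _ := mul_le_mul_of_nonneg_left a2 (by positivity)
    have h3 : 2 * s + 2 ≤ ε / 2 * t ^ (A - δ) := by
      rw [rpow_one] at a3
      have h4 : ε / 2 * (12 / ε * t) ≤ ε / 2 * t ^ (A - δ) :=
        mul_le_mul_of_nonneg_left a3 (by positivity)
      have h5 : ε / 2 * (12 / ε * t) = 6 * t := by field_simp; ring
      linarith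
    have h4 : ε * t ^ (A - δ) ≤ ε * ((PPf (Yf A b t)).card : ℝ) :=
      mul_le_mul_of_nonneg_left g.Plo hε.le
    linarith

end Pool.Agent.H568.SP
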