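import Pool.Agent.H568.SP.Count

set_option autoImplicit false

/-! # Asymptotic facts -/

namespace Pool.Agent.H568.SP

open Finset Filter Real

/-- odd primes below `Y` -/
noncomputable def PPf (Y : ℝ) : Finset ℕ := (range ⌈Y⌉₊).filter fun p => p.Prime ∧ p ≠ 2

theorem mem_PPf {Y : ℝ} {p : ℕ} : p ∈ PPf Y ↔ (p : ℝ) < Y ∧ p.Prime ∧ p ≠ 2 := by
  rw [PPf, mem_filter, mem_range, Nat.lt_ceil]

theorem PPf_mono {Y Z : ℝ} (h : Y ≤ Z) : PPf Y ⊆ PPf Z := by
  intro p hp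
  rw [mem_PPf] at hp ⊢
  exact ⟨hp.1.trans_le h, hp.2⟩

theorem primes_many (δ : ℝ) (hδ : 0 < δ) : ∀ᶠ Y : ℝ in atTop, Y ^ (1 - δ) ≤ ((PPf Y).card : ℝ) := by
  have h1 : ∀ᶠ Y : ℝ in atTop, log Y ≤ 1 / 16 * Y ^ δ := by
    have h := (isLittleO_log_rpow_atTop hδ).def (show (0 : ℝ) < 1 / 16 by norm_num)
    filter_upwards [h, eventually_ge_atTop 1] with Y hY hY1
    rw [norm_of_nonneg (log_nonneg hY1), norm_of_nonneg (by positivity)] at hY
    exact hY
  have h2 : ∀ᶠ Y : ℝ in atTop, log Y ≤ 1 / 100 * Y := by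
    have h := isLittleO_log_id_atTop.def (show (0 : ℝ) < 1 / 100 by norm_num)
    filter_upwards [h, eventually_ge_atTop 1] with Y hY hY1
    rw [norm_of_nonneg (log_nonneg hY1), id, norm_of_nonneg (by linarith)] at hY
    exact hY
  have h2' := (tendsto_atTop_add_const_right atTop (1 : ℝ) tendsto_id).eventually h2
  filter_upwards [h1, h2, h2', eventually_ge_atTop 100] with Y a1 a2 a3 a4
  simp only [id] at a3
  have hz : (2 : ℝ) ≤ Y - 1 := by linarith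
  have hlogY : 0 < log Y := log_pos (by linarith)
  have b1 := Chebyshev.psi_ge' (x := Y - 1) (by linarith)
  have b2 := Chebyshev.psi_le_primeCounting_mul_log' (Y - 1)
  have b3 : log (Y - 1) ≤ log Y := log_le_log (by linarith) (by linarith)
  have b4 : 0.69 < log 2 := by have := log_two_gt_d9; linarith
  have b5 : Y - 1 + 2 = Y + 1 := by ring
  rw [b5] at b1
  have b6 : Y / 2 ≤ (Nat.primeCounting ⌊Y - 1⌋₊ : ℝ) * log Y := by
    have c1 : (Nat.primeCounting ⌊Y - 1⌋₊ : ℝ) * log (Y - 1) ≤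
        (Nat.primeCounting ⌊Y - 1⌋₊ : ℝ) * log Y :=
      mul_le_mul_of_nonneg_left b3 (Nat.cast_nonneg _)
    nlinarith
  have b7 : Nat.primeCounting ⌊Y - 1⌋₊ ≤ (PPf Y).card + 1 := by
    have c1 : Nat.primeCounting ⌊Y - 1⌋₊ = ((range (⌊Y - 1⌋₊ + 1)).filter Nat.Prime).card := by
      rw [Nat.primeCounting, Nat.primeCounting', Nat.count_eq_card_filter_range]
    rw [c1]
    have c2 : (range (⌊Y - 1⌋₊ + 1)).filter Nat.Prime ⊆ insert 2 (PPf Y) := by
      intro p hp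
      rw [mem_filter, mem_range] at hp
      rw [mem_insert]
      by_cases h : p = 2
      · exact Or.inl h
      · right
        rw [mem_PPf]
        refine ⟨?_, hp.2, h⟩
        have d1 : p ≤ ⌊Y - 1⌋₊ := by omega
        have d2 : (p : ℝ) ≤ Y - 1 := by
          refine le_trans (by exact_mod_cast d1) (Nat.floor_le (by linarith))
        linarith
    exact (card_le_card c2).trans (card_insert_le _ _)
  have b8 : Y / 2 ≤ ((PPf Y).card + 1 : ℝ) * log Y := by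
    refine b6.trans (mul_le_mul_of_nonneg_right ?_ hlogY.le)
    exact_mod_cast b7
  have hYδ : 0 < Y ^ δ := by positivity
  have b9 : Y ^ (1 - δ) * Y ^ δ = Y := by
    rw [← rpow_add (by linarith)]
    simp
  have hY1 : 0 < Y ^ (1 - δ) := by positivity
  -- `(card + 1) * Y^δ / 16 ≥ Y / 2`
  have b10 : Y / 2 ≤ ((PPf Y).card + 1 : ℝ) * (1 / 16 * Y ^ δ) :=
    b8.trans (mul_le_mul_of_nonneg_left a1 (by positivity))
  have b11 : 8 * Y ^ (1 - δ) ≤ ((PPf Y).card + 1 : ℝ) := by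
    have : (8 * Y ^ (1 - δ)) * Y ^ δ ≤ ((PPf Y).card + 1 : ℝ) * Y ^ δ := by
      calc (8 * Y ^ (1 - δ)) * Y ^ δ = 8 * Y := by rw [mul_assoc, b9]
        _ ≤ _ := by linarith
    exact le_of_mul_le_mul_right this hYδ
  -- also `card + 1 ≥ 50`
  have b12 : (50 : ℝ) ≤ ((PPf Y).card + 1 : ℝ) := by
    have c1 : Y / 2 ≤ ((PPf Y).card + 1 : ℝ) * (1 / 100 * Y) :=
      b8.trans (mul_le_mul_of_nonneg_left a2 (by positivity))
    have c2 : 50 * Y ≤ ((PPf Y).card + 1 : ℝ) * Y := by linarith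
    exact le_of_mul_le_mul_right c2 (by linarith)
  linarith

/-- the range of the primes -/
noncomputable def Yf (A b t : ℝ) : ℝ := t ^ A * (log t) ^ b

/-- the inequalities which hold for all large `t` -/
structure Good (A b δ ε t : ℝ) : Prop where
  t1 : 1 ≤ t
  lt1 : 1 ≤ log t
  Yhi : Yf A b t + 1 ≤ t ^ (A + δ)
  Plo : t ^ (A - δ) ≤ ((PPf (Yf A b t)).card : ℝ)
  G : 2 ^ (4 / ε) * (16 / ε ^ 2) ≤ t ^ δ
  K : 5 * t / ε ≤ ε / 4 * t ^ (A - δ)
  K' : 2 * (5 * t / ε) * t ^ (A - 1 - 2 * δ) ≤ t ^ (A - δ)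

theorem ev_rpow_le (c a a' : ℝ) (h : a < a') : ∀ᶠ t : ℝ in atTop, c * t ^ a ≤ t ^ a' := by
  have h1 := (tendsto_rpow_atTop (show 0 < a' - a by linarith)).eventually (eventually_ge_atTop c)
  filter_upwards [h1, eventually_gt_atTop 0] with t ht ht0
  have h2 : t ^ a' = t ^ (a' - a) * t ^ a := by
    rw [← rpow_add ht0]
    congr 1
    ring
  rw [h2]
  exact mul_le_mul_of_nonneg_right ht (by positivity)

theorem ev_Yhi (A b δ : ℝ) (hδ : 0 < δ) :
    ∀ᶠ t : ℝ in atTop, Yf A b t + 1 ≤ t ^ (A + δ) ∨ A ≤ 0 := by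
  by_cases hA : A ≤ 0
  · exact Eventually.of_forall fun _ => Or.inr hA
  push Not at hA
  have h1 : ∀ᶠ t : ℝ in atTop, (log t) ^ b ≤ 1 / 2 * t ^ δ := by
    have h := (isLittleO_log_rpow_rpow_atTop b hδ).def (show (0 : ℝ) < 1 / 2 by norm_num)
    filter_upwards [h, eventually_ge_atTop 1] with t ht ht1
    rw [norm_of_nonneg (rpow_nonneg (log_nonneg ht1) _), norm_of_nonneg (by positivity)] at ht
    exact ht
  have h2 := ev_rpow_le 2 0 (A + δ) (by linarith)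
  filter_upwards [h1, h2, eventually_ge_atTop 1] with t a1 a2 a3
  left
  have h3 : t ^ A * (log t) ^ b ≤ t ^ A * (1 / 2 * t ^ δ) :=
    mul_le_mul_of_nonneg_left a1 (by positivity)
  have h4 : t ^ (A + δ) = t ^ A * t ^ δ := rpow_add (by linarith) _ _
  rw [rpow_zero] at a2
  unfold Yf
  nlinarith

theorem Yf_ge {A b t : ℝ} (hb : 0 ≤ b) (ht : 0 ≤ t) (hl : 1 ≤ log t) : t ^ A ≤ Yf A b t := by
  unfold Yf
  have h1 : (1 : ℝ) ≤ (log t) ^ b := one_le_rpow hl hb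
  have h2 : 0 ≤ t ^ A := rpow_nonneg ht _
  nlinarith

theorem ev_good (A b δ ε : ℝ) (hA : 1 < A) (hb : 0 ≤ b) (hδ : 0 < δ) (hδA : 3 * δ < A - 1)
    (hε : 0 < ε) : ∀ᶠ t : ℝ in atTop, Good A b δ ε t := by
  have e1 : ∀ᶠ t : ℝ in atTop, 1 ≤ log t := by
    filter_upwards [eventually_ge_atTop (exp 1)] with t ht
    rwa [le_log_iff_exp_le (lt_of_lt_of_le (exp_pos 1) ht)]
  have e2 := ev_Yhi A b δ hδ
  have hYt : Tendsto (fun t : ℝ => t ^ A) atTop atTop := tendsto_rpow_atTop (by linarith)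
  have e3 := (primes_many (δ / A) (by positivity))
  -- transfer to Yf
  have hY : Tendsto (fun t : ℝ => Yf A b t) atTop atTop := by
    refine tendsto_atTop_mono' atTop ?_ hYt
    filter_upwards [e1, eventually_ge_atTop 0] with t h1 h2
    exact Yf_ge hb h2 h1
  have e3' := hY.eventually e3
  have e4 : ∀ᶠ t : ℝ in atTop, 2 ^ (4 / ε) * (16 / ε ^ 2) ≤ t ^ δ :=
    (tendsto_rpow_atTop hδ).eventually (eventually_ge_atTop _)
  have e5 := ev_rpow_le (5 / ε * (4 / ε)) 1 (A - δ) (by linarith)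
  have e6 := ev_rpow_le (2 * 5 / ε) (1 + (A - 1 - 2 * δ)) (A - δ) (by linarith)
  filter_upwards [e1, e2, e3', e4, e5, e6, eventually_ge_atTop 1] with t a1 a2 a3 a4 a5 a6 a7
  have ht0 : 0 < t := by linarith
  refine ⟨a7, a1, a2.resolve_right (by linarith), ?_, a4, ?_, ?_⟩
  · refine le_trans ?_ a3
    have h1 : t ^ A ≤ Yf A b t := Yf_ge hb (by linarith) a1
    have h2 : t ^ (A - δ) = (t ^ A) ^ (1 - δ / A) := by
      rw [← rpow_mul (by linarith)]
      congr 1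
      field_simp
    rw [h2]
    have h3 : 0 ≤ 1 - δ / A := by
      have : δ / A ≤ 1 := by rw [div_le_one (by linarith)]; linarith
      linarith
    exact rpow_le_rpow (by positivity) h1 h3
  · rw [rpow_one] at a5
    have h1 : 5 * t / ε = (5 / ε * (4 / ε) * t) * (ε / 4) := by field_simp
    rw [h1, mul_comm]
    exact mul_le_mul_of_nonneg_left a5 (by positivity)
  · rw [rpow_add ht0, rpow_one] at a6
    calc 2 * (5 * t / ε) * t ^ (A - 1 - 2 * δ) = 2 * 5 / ε * (t * t ^ (A - 1 - 2 * δ)) := by ring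
      _ ≤ _ := a6

/-- choice of the number and the size of the blocks -/
theorem params {A b δ ε t : ℝ} (hg : Good A b δ ε t) (hε : 0 < ε) (hε1 : ε ≤ 1) (k : ℕ) (hk : 1 ≤ k)
    (hkt : (k : ℝ) ≤ t) (P : ℕ) (hP : t ^ (A - δ) ≤ (P : ℝ)) : ∃ K m : ℕ, 0 < m ∧ K * m ≤ P ∧
      (P : ℝ) - K * m ≤ ε / 2 * P ∧ (k : ℝ) ≤ ε / 4 * K ∧ t ^ (A - 1 - 2 * δ) ≤ (m : ℝ) ∧
      (2 : ℝ) ^ K ≤ 2 * ((2 : ℝ) ^ (4 / ε)) ^ k := by
  have ht0 : 0 < t := by linarith [hg.t1]
  have hk' : (1 : ℝ) ≤ k := by exact_mod_cast hk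
  set K := ⌈4 * k / ε⌉₊ with hK
  have hK1 : 4 * k / ε ≤ (K : ℝ) := Nat.le_ceil _
  have hK2 : (K : ℝ) < 4 * k / ε + 1 := Nat.ceil_lt_add_one (by positivity)
  have hK3 : (K : ℝ) ≤ 5 * t / ε := by
    have h1 : (1 : ℝ) ≤ k / ε := by
      rw [le_div_iff₀ hε]
      linarith
    have h2 : 4 * k / ε + 1 ≤ 5 * t / ε := by
      have h3 : 5 * (k : ℝ) / ε ≤ 5 * t / ε := by gcongr
      have h4 : 4 * (k : ℝ) / ε + k / ε = 5 * k / ε := by ring
      linarith
    linarith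
  have hKpos : 0 < (K : ℝ) := lt_of_lt_of_le (by positivity) hK1
  have hKpos' : 0 < K := by exact_mod_cast hKpos
  have hPK : (K : ℝ) ≤ ε / 4 * P := by
    have := hg.K
    have h1 : ε / 4 * t ^ (A - δ) ≤ ε / 4 * P := mul_le_mul_of_nonneg_left hP (by positivity)
    linarith
  have hm1 : (P : ℝ) / K < (P / K : ℕ) + 1 := by
    rw [div_lt_iff₀ hKpos]
    have h1 := Nat.lt_div_mul_add (a := P) hKpos'
    have h2 : (P : ℝ) < ((P / K : ℕ) : ℝ) * K + K := by exact_mod_cast h1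
    linarith
  refine ⟨K, P / K, ?_, Nat.mul_div_le P K, ?_, ?_, ?_, ?_⟩
  · apply Nat.div_pos _ hKpos'
    have : (K : ℝ) ≤ P := by
      have : ε / 4 * (P : ℝ) ≤ 1 * P := mul_le_mul_of_nonneg_right (by linarith) (Nat.cast_nonneg _)
      linarith
    exact_mod_cast this
  · have h1 : (P : ℝ) < ((P / K : ℕ) : ℝ) * K + K := by
      have h1 := Nat.lt_div_mul_add (a := P) hKpos'
      exact_mod_cast h1
    have h2 : (0 : ℝ) ≤ ε / 4 * P := by positivity
    nlinarith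
  · have := mul_le_mul_of_nonneg_left hK1 (show 0 ≤ ε / 4 by positivity)
    have h1 : ε / 4 * (4 * k / ε) = k := by field_simp
    linarith
  · have h1 := hg.K'
    have h2 : 2 * (K : ℝ) * t ^ (A - 1 - 2 * δ) ≤ P := by
      refine le_trans ?_ hP
      refine le_trans ?_ h1
      gcongr
    have h3 : 2 * t ^ (A - 1 - 2 * δ) ≤ (P : ℝ) / K := by
      rw [le_div_iff₀ hKpos]
      linarith
    have h4 : (4 : ℝ) ≤ (P : ℝ) / K := by
      rw [le_div_iff₀ hKpos]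
      have : ε / 4 * (P : ℝ) ≤ 1 / 4 * P := mul_le_mul_of_nonneg_right (by linarith) (Nat.cast_nonneg _)
      linarith
    have h5 : (P : ℝ) / K ≤ 2 * ((P / K : ℕ) : ℝ) := by linarith
    linarith
  · have h1 : (2 : ℝ) ^ K = (2 : ℝ) ^ (K : ℝ) := (rpow_natCast 2 K).symm
    have h2 : ((2 : ℝ) ^ (4 / ε)) ^ k = (2 : ℝ) ^ (4 / ε * k) := by
      rw [rpow_mul (by norm_num), rpow_natCast]
    rw [h1, h2]
    have h3 : 2 * (2 : ℝ) ^ (4 / ε * k) = (2 : ℝ) ^ (4 / ε * k + 1) := by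
      rw [rpow_add (by norm_num), rpow_one]
      ring
    rw [h3]
    apply rpow_le_rpow_of_exponent_le (by norm_num)
    have h4 : 4 / ε * (k : ℝ) = 4 * k / ε := by ring
    rw [h4]
    exact hK2.le

end Pool.Agent.H568.SP
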