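import Pool.Agent.H568.SP.Moment

set_option autoImplicit false

/-! # From moments of products over blocks to the number of large character sums -/

namespace Pool.Agent.H568.SP

open Finset

/-- the character sum over the block `i` -/
def SS {K m : ℕ} (f : Fin K → Fin m → ℕ) (d : ℤ) (i : Fin K) : ℝ :=
  ∑ j, ((jacobiSym d (f i j) : ℤ) : ℝ)

theorem SS_abs_le {K m : ℕ} (f : Fin K → Fin m → ℕ) (d : ℤ) (i : Fin K) :
    |SS f d i| ≤ m := by
  unfold SS
  refine (abs_sum_le_sum_abs _ _).trans ?_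
  calc ∑ j : Fin m, |((jacobiSym d (f i j) : ℤ) : ℝ)| ≤ ∑ _j : Fin m, (1 : ℝ) :=
        sum_le_sum fun j _ => jac_abs_le _ _
    _ = m := by simp

theorem many_blocks {K m : ℕ} (hm : 0 < m) (f : Fin K → Fin m → ℕ) (d : ℤ) (ε : ℝ) (hε : 0 < ε)
    (h : ε * (K * m) ≤ |∑ i, SS f d i|) :
    ε / 2 * K ≤ ((univ.filter fun i => ε / 2 * m ≤ |SS f d i|).card : ℝ) := by
  classical
  set B := univ.filter fun i => ε / 2 * m ≤ |SS f d i| with hB
  have hm' : (0 : ℝ) < m := by exact_mod_cast hm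
  have h1 : |∑ i, SS f d i| ≤ ∑ i, |SS f d i| := abs_sum_le_sum_abs _ _
  have h2 : ∑ i, |SS f d i| = ∑ i ∈ B, |SS f d i| +
      ∑ i ∈ univ.filter (fun i => ¬ ε / 2 * m ≤ |SS f d i|), |SS f d i| := by
    rw [hB, Finset.sum_filter_add_sum_filter_not]
  have h3 : ∑ i ∈ B, |SS f d i| ≤ (B.card : ℝ) * m := by
    rw [← nsmul_eq_mul, ← sum_const]
    exact sum_le_sum fun i _ => SS_abs_le f d i
  have h4 : ∑ i ∈ univ.filter (fun i => ¬ ε / 2 * m ≤ |SS f d i|), |SS f d i| ≤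
      (K : ℝ) * (ε / 2 * m) := by
    calc _ ≤ ∑ _i ∈ univ.filter (fun i => ¬ ε / 2 * m ≤ |SS f d i|), ε / 2 * (m : ℝ) := by
          refine sum_le_sum fun i hi => ?_
          rw [mem_filter] at hi
          exact (not_le.1 hi.2).le
      _ = ((univ.filter (fun i => ¬ ε / 2 * m ≤ |SS f d i|)).card : ℝ) * (ε / 2 * m) := by
          rw [sum_const, nsmul_eq_mul]
      _ ≤ _ := by
          refine mul_le_mul_of_nonneg_right ?_ (by positivity)
          have := card_le_univ (univ.filter (fun i => ¬ ε / 2 * m ≤ |SS f d i|))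
          rw [Fintype.card_fin] at this
          exact_mod_cast this
  have h5 : (ε / 2 * K) * m ≤ (B.card : ℝ) * m := by nlinarith
  exact le_of_mul_le_mul_right h5 hm'

theorem count_le {K m : ℕ} (hm : 0 < m) (f : Fin K → Fin m → ℕ) (D : Finset ℕ) (δ : ℕ → ℤ)
    (ε : ℝ) (hε : 0 < ε) (k : ℕ) (hk : (k : ℝ) ≤ ε / 2 * K)
    (hD : ∀ n ∈ D, ε * (K * m) ≤ |∑ i, SS f (δ n) i|) (B : ℝ) (hB0 : 0 ≤ B)
    (hB : ∀ I : Finset (Fin K), I.card = k → ∑ n ∈ D, (∏ i ∈ I, SS f (δ n) i) ^ 2 ≤ B) :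
    (D.card : ℝ) * ((ε / 2 * m) ^ k) ^ 2 ≤ 2 ^ K * B := by
  classical
  have h1 : ∀ n ∈ D, ((ε / 2 * m) ^ k) ^ 2 ≤
      ∑ I ∈ powersetCard k (univ : Finset (Fin K)), (∏ i ∈ I, SS f (δ n) i) ^ 2 := by
    intro n hn
    have h2 := many_blocks hm f (δ n) ε hε (hD n hn)
    have h3 : k ≤ (univ.filter fun i => ε / 2 * m ≤ |SS f (δ n) i|).card := by
      have := hk.trans h2
      exact_mod_cast this
    obtain ⟨I, hI, hIk⟩ := Finset.exists_subset_card_eq h3
    have h4 : I ∈ powersetCard k (univ : Finset (Fin K)) := by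
      rw [mem_powersetCard]
      exact ⟨subset_univ _, hIk⟩
    refine le_trans ?_ (single_le_sum (f := fun I => (∏ i ∈ I, SS f (δ n) i) ^ 2)
      (fun J _ => sq_nonneg _) h4)
    have h5 : (ε / 2 * m) ^ k ≤ |∏ i ∈ I, SS f (δ n) i| := by
      rw [abs_prod, ← hIk, ← prod_const]
      refine prod_le_prod (fun i _ => by positivity) fun i hi => ?_
      exact (mem_filter.1 (hI hi)).2
    rw [← sq_abs (∏ i ∈ I, SS f (δ n) i)]
    exact pow_le_pow_left₀ (by positivity) h5 2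
  calc (D.card : ℝ) * ((ε / 2 * m) ^ k) ^ 2 = ∑ _n ∈ D, ((ε / 2 * m) ^ k) ^ 2 := by
        rw [sum_const, nsmul_eq_mul]
    _ ≤ ∑ n ∈ D, ∑ I ∈ powersetCard k (univ : Finset (Fin K)), (∏ i ∈ I, SS f (δ n) i) ^ 2 :=
        sum_le_sum h1
    _ = ∑ I ∈ powersetCard k (univ : Finset (Fin K)), ∑ n ∈ D, (∏ i ∈ I, SS f (δ n) i) ^ 2 :=
        sum_comm
    _ ≤ ∑ _I ∈ powersetCard k (univ : Finset (Fin K)), B :=
        sum_le_sum fun I hI => hB I (mem_powersetCard.1 hI).2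
    _ = (Nat.choose K k : ℝ) * B := by
        rw [sum_const, card_powersetCard, card_univ, Fintype.card_fin, nsmul_eq_mul]
    _ ≤ 2 ^ K * B := by
        refine mul_le_mul_of_nonneg_right ?_ hB0
        exact_mod_cast Nat.choose_le_two_pow K k

theorem prod_SS {K m : ℕ} (f : Fin K → Fin m → ℕ) (d : ℤ) (I : Finset (Fin K)) :
    ∏ i ∈ I, SS f d i = BP (fun (i : {i // i ∈ I}) j => f i j) d := by
  unfold BP SS
  rw [← Finset.prod_coe_sort]

theorem Fam.restrict {K m y : ℕ} {f : Fin K → Fin m → ℕ} (hf : Fam f y) (I : Finset (Fin K)) :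
    Fam (fun (i : {i // i ∈ I}) j => f i j) y where
  pr i j := hf.pr _ _
  odd i j := hf.odd _ _
  le i j := hf.le _ _
  inj i j i' j' h := by
    obtain ⟨h1, h2⟩ := hf.inj _ _ _ _ h
    exact ⟨Subtype.ext h1, h2⟩

/-- the primes can be distributed into `K` blocks of `m` primes -/
theorem fam_of_set (PP : Finset ℕ) (y : ℕ) (hpr : ∀ p ∈ PP, p.Prime) (hodd : ∀ p ∈ PP, p ≠ 2)
    (hle : ∀ p ∈ PP, p ≤ y) (K m : ℕ) (hKm : K * m ≤ PP.card) :
    ∃ f : Fin K → Fin m → ℕ, Fam f y ∧ ∀ a : ℕ → ℝ, (∀ p, |a p| ≤ 1) →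
      |∑ p ∈ PP, a p| ≤ |∑ i, ∑ j, a (f i j)| + (PP.card - K * m) := by
  classical
  let e := PP.orderEmbOfFin rfl
  let F : Fin K × Fin m → ℕ := fun q => e (Fin.castLE hKm (finProdFinEquiv q))
  have hFmem : ∀ q, F q ∈ PP := fun q => PP.orderEmbOfFin_mem rfl _
  have hFinj : Function.Injective F := by
    intro q q' h
    have h1 := e.injective h
    have h2 := Fin.castLE_injective hKm h1
    exact finProdFinEquiv.injective h2
  refine ⟨fun i j => F (i, j), ⟨fun i j => hpr _ (hFmem _), fun i j => hodd _ (hFmem _),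
    fun i j => hle _ (hFmem _), fun i j i' j' h => ?_⟩, ?_⟩
  · have := hFinj h
    simpa using this
  · intro a ha
    have h1 : ∑ i, ∑ j, a (F (i, j)) = ∑ p ∈ univ.image F, a p := by
      rw [Finset.sum_image (fun q _ q' _ h => hFinj h), ← Finset.univ_product_univ,
        Finset.sum_product]
    have hsub : univ.image F ⊆ PP := by
      intro p hp
      obtain ⟨q, _, rfl⟩ := mem_image.1 hp
      exact hFmem q
    have hcard : (univ.image F).card = K * m := by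
      rw [card_image_of_injective _ hFinj, card_univ, Fintype.card_prod, Fintype.card_fin,
        Fintype.card_fin]
    rw [h1, ← Finset.sum_sdiff hsub, add_comm]
    refine (abs_add_le _ _).trans ?_
    gcongr
    refine (abs_sum_le_sum_abs _ _).trans ?_
    calc ∑ p ∈ PP \ univ.image F, |a p| ≤ ∑ _p ∈ PP \ univ.image F, (1 : ℝ) :=
          sum_le_sum fun p _ => ha p
      _ = ((PP \ univ.image F).card : ℝ) := by simp
      _ = (PP.card : ℝ) - K * m := by
          rw [card_sdiff_of_subset hsub, hcard, Nat.cast_sub hKm]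
          push_cast
          ring

/-- **Main count in an interval.** -/
theorem mainA (PP : Finset ℕ) (y : ℕ) (hy : 1 ≤ y) (hpr : ∀ p ∈ PP, p.Prime)
    (hodd : ∀ p ∈ PP, p ≠ 2) (hle : ∀ p ∈ PP, p ≤ y) (ε : ℝ) (hε : 0 < ε) (K m k : ℕ) (hm : 0 < m)
    (hKm : K * m ≤ PP.card) (hrest : (PP.card : ℝ) - K * m ≤ ε / 2 * PP.card)
    (hk : (k : ℝ) ≤ ε / 4 * K) (x H : ℕ) (D : Finset ℕ) (hDs : D ⊆ Ioc x (x + H))
    (hD : ∀ n ∈ D, ε * PP.card ≤ |∑ p ∈ PP, ((jacobiSym (-(n : ℤ)) p : ℤ) : ℝ)|) :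
    (D.card : ℝ) * ((ε / 4 * m) ^ k) ^ 2 ≤ 2 ^ K * ((H : ℝ) * (m : ℝ) ^ k +
      ((m : ℝ) ^ k) ^ 2 * (8 * (y : ℝ) ^ k * (1 + 2 * k * Real.log y))) := by
  classical
  obtain ⟨f, hf, hsum⟩ := fam_of_set PP y hpr hodd hle K m hKm
  have hlogy : 0 ≤ Real.log y := Real.log_natCast_nonneg y
  have key := count_le hm f D (fun n => -(n : ℤ)) (ε / 2) (by positivity) k
    (by rw [show ε / 2 / 2 = ε / 4 by ring]; exact hk) (by
      intro n hn
      have h1 := hD n hn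
      have h2 := hsum (fun p => ((jacobiSym (-(n : ℤ)) p : ℤ) : ℝ)) (fun p => jac_abs_le _ _)
      have h3 : (K : ℝ) * m ≤ PP.card := by exact_mod_cast hKm
      have h4 : ε / 2 * ((K : ℝ) * m) ≤ ε / 2 * PP.card :=
        mul_le_mul_of_nonneg_left h3 (by positivity)
      show ε / 2 * (K * m) ≤ |∑ i, ∑ j, ((jacobiSym (-(n : ℤ)) (f i j) : ℤ) : ℝ)|
      linarith) ((H : ℝ) * (m : ℝ) ^ k +
      ((m : ℝ) ^ k) ^ 2 * (8 * (y : ℝ) ^ k * (1 + 2 * k * Real.log y))) (by positivity)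
      (fun I hI => by
      have h1 := momA (hf.restrict I) hy x H
      rw [Fintype.card_coe, hI] at h1
      refine le_trans ?_ h1
      simp_rw [prod_SS]
      exact sum_le_sum_of_subset_of_nonneg hDs fun n _ _ => sq_nonneg _)
  rw [show ε / 2 / 2 = ε / 4 by ring] at key
  exact key

end Pool.Agent.H568.SP
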