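import Pool.Agent.H568.SP.Count
import Pool.Agent.H423R2.RZL.HBLS

set_option autoImplicit false

/-! # The same with the large sieve of Heath-Brown, for all squarefree numbers up to `X` -/

namespace Pool.Agent.H568.SP

open Finset Pool.Agent.H306R2.RZ

section

variable {ι : Type} [Fintype ι] [DecidableEq ι] {m : ℕ} {f : ι → Fin m → ℕ} {y : ℕ}

theorem momB (hf : Fam f y) (X N : ℕ) (hN : y ^ Fintype.card ι ≤ N) (B : ℝ) (hLS : LSB X N B)
    (hB : 0 ≤ B) :
    ∑ n ∈ sqf X, BP f (-(n : ℤ)) ^ 2 ≤ B * (m : ℝ) ^ Fintype.card ι := by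
  classical
  set a : ℕ → ℂ := fun n => ∑ g : ι → Fin m,
    if sg f g = n then (((jacobiSym (-1) n : ℤ) : ℝ) : ℂ) else 0 with ha
  have hmem : ∀ g : ι → Fin m, sg f g ∈ osf N := by
    intro g
    rw [osf, mem_filter, mem_Icc]
    exact ⟨⟨sg_pos hf g, (sg_le hf g).trans hN⟩, sg_odd hf g, sg_sqf hf g⟩
  have h1 : ∀ n : ℕ, ∑ s ∈ osf N, a s * (js n s : ℂ) = ((BP f (-(n : ℤ)) : ℝ) : ℂ) := by
    intro n
    rw [BP_eq hf]
    simp_rw [ha, Finset.sum_mul]
    rw [sum_comm]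
    push_cast
    refine sum_congr rfl fun g _ => ?_
    rw [Finset.sum_eq_single (sg f g)]
    · rw [if_pos rfl, js, show (-(n : ℤ)) = (-1) * (n : ℤ) by ring, jacobiSym.mul_left]
      push_cast
      rfl
    · intro s _ hs
      rw [if_neg (Ne.symm hs), zero_mul]
    · intro h
      exact absurd (hmem g) h
  have h2 : ∑ n ∈ sqf X, BP f (-(n : ℤ)) ^ 2 =
      ∑ n ∈ sqf X, ‖∑ s ∈ osf N, a s * (js n s : ℂ)‖ ^ 2 := by
    refine sum_congr rfl fun n _ => ?_
    rw [h1, Complex.norm_real, Real.norm_eq_abs, sq_abs]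
  rw [h2]
  refine (hLS a).trans ?_
  refine mul_le_mul_of_nonneg_left ?_ hB
  have h3 : ∀ s : ℕ, ‖a s‖ ^ 2 ≤ ∑ g : ι → Fin m, if sg f g = s then (1 : ℝ) else 0 := by
    intro s
    by_cases hs : ∃ g0, sg f g0 = s
    · obtain ⟨g0, hg0⟩ := hs
      have e1 : a s = (((jacobiSym (-1) s : ℤ) : ℝ) : ℂ) := by
        rw [ha]
        simp only
        rw [Finset.sum_eq_single g0]
        · rw [if_pos hg0]
        · intro g _ hg
          rw [if_neg]
          intro h
          exact hg (sg_inj hf (h.trans hg0.symm))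
        · intro h
          exact absurd (mem_univ _) h
      have e2 : ‖a s‖ ≤ 1 := by
        rw [e1, Complex.norm_real]
        exact jac_abs_le _ _
      have e3 : (1 : ℝ) ≤ ∑ g : ι → Fin m, if sg f g = s then (1 : ℝ) else 0 := by
        refine le_trans ?_ (single_le_sum (f := fun g => if sg f g = s then (1 : ℝ) else 0)
          (fun g _ => by positivity) (mem_univ g0))
        simp [hg0]
      have e4 : ‖a s‖ ^ 2 ≤ 1 := by
        have := norm_nonneg (a s)
        nlinarith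
      linarith
    · push Not at hs
      have e1 : a s = 0 := by
        rw [ha]
        simp only
        exact Finset.sum_eq_zero fun g _ => if_neg (hs g)
      rw [e1, norm_zero]
      have : (0 : ℝ) ≤ ∑ g : ι → Fin m, if sg f g = s then (1 : ℝ) else 0 :=
        sum_nonneg fun g _ => by positivity
      simpa using this
  calc ∑ s ∈ osf N, ‖a s‖ ^ 2 ≤ ∑ s ∈ osf N, ∑ g : ι → Fin m, if sg f g = s then (1 : ℝ) else 0 :=
        sum_le_sum fun s _ => h3 s
    _ = ∑ g : ι → Fin m, ∑ s ∈ osf N, if sg f g = s then (1 : ℝ) else 0 := sum_comm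
    _ ≤ ∑ _g : ι → Fin m, (1 : ℝ) := by
        refine sum_le_sum fun g _ => ?_
        rw [sum_ite_eq]
        split_ifs <;> norm_num
    _ = (m : ℝ) ^ Fintype.card ι := by
        rw [sum_const, card_univ, Fintype.card_fun, Fintype.card_fin, nsmul_eq_mul]
        push_cast
        ring

end

/-- **Main count for squarefree numbers.** -/
theorem mainB (PP : Finset ℕ) (y : ℕ) (hpr : ∀ p ∈ PP, p.Prime)
    (hodd : ∀ p ∈ PP, p ≠ 2) (hle : ∀ p ∈ PP, p ≤ y) (ε : ℝ) (hε : 0 < ε) (K m k : ℕ) (hm : 0 < m)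
    (hKm : K * m ≤ PP.card) (hrest : (PP.card : ℝ) - K * m ≤ ε / 2 * PP.card)
    (hk : (k : ℝ) ≤ ε / 4 * K) (X N : ℕ) (hN : y ^ k ≤ N) (B : ℝ) (hLS : LSB X N B) (hB : 0 ≤ B)
    (D : Finset ℕ) (hDs : D ⊆ sqf X)
    (hD : ∀ n ∈ D, ε * PP.card ≤ |∑ p ∈ PP, ((jacobiSym (-(n : ℤ)) p : ℤ) : ℝ)|) :
    (D.card : ℝ) * ((ε / 4 * m) ^ k) ^ 2 ≤ 2 ^ K * (B * (m : ℝ) ^ k) := by
  classical
  obtain ⟨f, hf, hsum⟩ := fam_of_set PP y hpr hodd hle K m hKm
  have key := count_le hm f D (fun n => -(n : ℤ)) (ε / 2) (by positivity) k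
    (by rw [show ε / 2 / 2 = ε / 4 by ring]; exact hk) (by
      intro n hn
      have h1 := hD n hn
      have h2 := hsum (fun p => ((jacobiSym (-(n : ℤ)) p : ℤ) : ℝ)) (fun p => jac_abs_le _ _)
      have h3 : (K : ℝ) * m ≤ PP.card := by exact_mod_cast hKm
      have h4 : ε / 2 * ((K : ℝ) * m) ≤ ε / 2 * PP.card :=
        mul_le_mul_of_nonneg_left h3 (by positivity)
      show ε / 2 * (K * m) ≤ |∑ i, ∑ j, ((jacobiSym (-(n : ℤ)) (f i j) : ℤ) : ℝ)|
      linarith) (B * (m : ℝ) ^ k) (by positivity) (fun I hI => by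
      have h1 := momB (hf.restrict I) X N (by rw [Fintype.card_coe, hI]; exact hN) B hLS hB
      rw [Fintype.card_coe, hI] at h1
      refine le_trans ?_ h1
      simp_rw [prod_SS]
      exact sum_le_sum_of_subset_of_nonneg hDs fun n _ _ => sq_nonneg _)
  rw [show ε / 2 / 2 = ε / 4 by ring] at key
  exact key

end Pool.Agent.H568.SP
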