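import Pool.Agent.H568.SP.Asym
import Pool.Agent.H568.SP.Count

set_option autoImplicit false

/-! # The counting theorem with asymptotic bounds -/

namespace Pool.Agent.H568.SP

open Finset Filter Real

/-- the number of `n` is at most the bound -/
theorem reduceA {A δ ε t : ℝ} (ht0 : 0 < t) (hε : 0 < ε)
    (hG : 2 ^ (4 / ε) * (16 / ε ^ 2) ≤ t ^ δ) (K m k : ℕ) (hm : 0 < m)
    (hmt : t ^ (A - 1 - 2 * δ) ≤ (m : ℝ)) (h2K : (2 : ℝ) ^ K ≤ 2 * ((2 : ℝ) ^ (4 / ε)) ^ k)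
    (D H E : ℝ) (hH : 0 ≤ H) (hE : 0 ≤ E)
    (h : D * ((ε / 4 * m) ^ k) ^ 2 ≤ 2 ^ K * (H * (m : ℝ) ^ k + ((m : ℝ) ^ k) ^ 2 * E)) :
    D ≤ 2 * (H * ((t ^ k) ^ (-(A - 1 - 3 * δ))) + (t ^ k) ^ δ * E) := by
  have hm0 : (0 : ℝ) < m := by exact_mod_cast hm
  set M : ℝ := (m : ℝ) ^ k with hM
  have hM0 : 0 < M := by positivity
  have hu0 : 0 < t ^ k := by positivity
  -- divide
  have e1 : ((ε / 4 * m) ^ k) ^ 2 = ((ε ^ 2 / 16) ^ k) * M ^ 2 := by
    have e0 : ε ^ 2 / 16 = (ε / 4) ^ 2 := by ring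
    rw [hM, e0, mul_pow, mul_pow, ← pow_mul (ε / 4) k 2, ← pow_mul (ε / 4) 2 k, mul_comm 2 k]
  have e2 : (16 / ε ^ 2) ^ k * (ε ^ 2 / 16) ^ k = 1 := by
    rw [← mul_pow]
    have : 16 / ε ^ 2 * (ε ^ 2 / 16) = 1 := by field_simp
    rw [this, one_pow]
  have h1 : D ≤ (16 / ε ^ 2) ^ k * 2 ^ K * (H / M + E) := by
    rw [e1] at h
    have h3 : (16 / ε ^ 2) ^ k * (D * (((ε ^ 2 / 16) ^ k) * M ^ 2)) ≤
        (16 / ε ^ 2) ^ k * (2 ^ K * (H * M + M ^ 2 * E)) :=
      mul_le_mul_of_nonneg_left h (by positivity)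
    have h4 : (16 / ε ^ 2) ^ k * (D * (((ε ^ 2 / 16) ^ k) * M ^ 2)) = D * M ^ 2 := by
      calc _ = ((16 / ε ^ 2) ^ k * (ε ^ 2 / 16) ^ k) * (D * M ^ 2) := by ring
        _ = D * M ^ 2 := by rw [e2, one_mul]
    rw [h4] at h3
    have h5 : (16 / ε ^ 2) ^ k * (2 ^ K * (H * M + M ^ 2 * E)) =
        ((16 / ε ^ 2) ^ k * 2 ^ K * (H / M + E)) * M ^ 2 := by
      field_simp
    rw [h5] at h3
    exact le_of_mul_le_mul_right h3 (by positivity)
  have h2 : (16 / ε ^ 2) ^ k * 2 ^ K ≤ 2 * (t ^ k) ^ δ := by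
    calc (16 / ε ^ 2) ^ k * 2 ^ K ≤ (16 / ε ^ 2) ^ k * (2 * ((2 : ℝ) ^ (4 / ε)) ^ k) :=
          mul_le_mul_of_nonneg_left h2K (by positivity)
      _ = 2 * (2 ^ (4 / ε) * (16 / ε ^ 2)) ^ k := by rw [mul_pow]; ring
      _ ≤ 2 * (t ^ δ) ^ k := by
          refine mul_le_mul_of_nonneg_left (pow_le_pow_left₀ (by positivity) hG k) (by norm_num)
      _ = 2 * (t ^ k) ^ δ := by
          rw [← rpow_natCast (t ^ δ) k, ← rpow_mul ht0.le, ← rpow_natCast t k, ← rpow_mul ht0.le,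
            mul_comm δ]
  have h3 : (t ^ k) ^ (A - 1 - 2 * δ) ≤ M := by
    have e3 : (t ^ k) ^ (A - 1 - 2 * δ) = (t ^ (A - 1 - 2 * δ)) ^ k := by
      rw [← rpow_natCast (t ^ (A - 1 - 2 * δ)) k, ← rpow_mul ht0.le, ← rpow_natCast t k,
        ← rpow_mul ht0.le, mul_comm (k : ℝ)]
    rw [e3, hM]
    exact pow_le_pow_left₀ (by positivity) hmt k
  have h4 : H / M ≤ H * (t ^ k) ^ (-(A - 1 - 2 * δ)) := by
    rw [rpow_neg hu0.le, div_eq_mul_inv]
    refine mul_le_mul_of_nonneg_left ?_ hH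
    exact inv_anti₀ (by positivity) h3
  calc D ≤ (16 / ε ^ 2) ^ k * 2 ^ K * (H / M + E) := h1
    _ ≤ (2 * (t ^ k) ^ δ) * (H * (t ^ k) ^ (-(A - 1 - 2 * δ)) + E) :=
        mul_le_mul h2 (by linarith) (by positivity) (by positivity)
    _ = 2 * (H * ((t ^ k) ^ δ * (t ^ k) ^ (-(A - 1 - 2 * δ))) + (t ^ k) ^ δ * E) := by ring
    _ = _ := by
        rw [← rpow_add hu0]
        congr 4
        ring

theorem finA {A b δ ε t : ℝ} (hA : 1 < A) (hδ : 0 < δ) (hδ1 : δ ≤ 1) (hδA : 3 * δ < A - 1)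
    (hε : 0 < ε) (hε1 : ε ≤ 1) (hg : Good A b δ ε t)
    (hbig : 2 * t ^ (A - 1) + 16 + 32 * (A + 1) * t ≤ t ^ (A + 1))
    (x H : ℕ) (hx : t = log x) (hH : 1 ≤ H) (hHx : H ≤ x) (D : Finset ℕ) (hDs : D ⊆ Ioc x (x + H))
    (hD : ∀ n ∈ D, ε * ((PPf (Yf A b t)).card : ℝ) ≤
      |∑ p ∈ PPf (Yf A b t), ((jacobiSym (-(n : ℤ)) p : ℤ) : ℝ)|) :
    (D.card : ℝ) ≤ (H : ℝ) ^ (A / (2 * A - 1) + 3 * δ) * t ^ (A + 1) := by
  have ht1 := hg.t1
  have hlt1 := hg.lt1
  have ht0 : 0 < t := by linarith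
  have hH' : (1 : ℝ) ≤ H := by exact_mod_cast hH
  have hH0 : (0 : ℝ) < H := by linarith
  have hc : (0 : ℝ) < 2 * A - 1 := by linarith
  set w : ℝ := (H : ℝ) ^ (1 / (2 * A - 1)) with hw
  have hw1 : 1 ≤ w := one_le_rpow hH' (by positivity)
  have hw0 : 0 < w := by linarith
  have hlogw0 : 0 ≤ log w := log_nonneg hw1
  have hHw : (H : ℝ) = w ^ (2 * A - 1) := by
    rw [hw, ← rpow_mul hH0.le]
    have : 1 / (2 * A - 1) * (2 * A - 1) = 1 := by field_simp
    rw [this, rpow_one]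
  have hlogwH : log w ≤ log H := by
    rw [hw, log_rpow hH0]
    have h1 : 0 ≤ log (H : ℝ) := log_nonneg hH'
    have h2 : 1 / (2 * A - 1) ≤ 1 := by rw [div_le_one hc]; linarith
    nlinarith
  have hlogHt : log H ≤ t := by
    rw [hx]
    exact log_le_log hH0 (by exact_mod_cast hHx)
  set k := ⌊log w / log t⌋₊ with hk
  have hlogt0 : 0 < log t := by linarith
  have hk1 : (k : ℝ) * log t ≤ log w := by
    have := Nat.floor_le (show 0 ≤ log w / log t by positivity)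
    rw [le_div_iff₀ hlogt0] at this
    exact this
  have hk2 : log w < (k + 1) * log t := by
    have := Nat.lt_floor_add_one (log w / log t)
    rw [div_lt_iff₀ hlogt0] at this
    exact this
  have hu : t ^ k ≤ w := by
    rw [← log_le_log_iff (by positivity) hw0, log_pow]
    exact hk1
  have hut : w < t ^ k * t := by
    rw [← pow_succ, ← log_lt_log_iff hw0 (by positivity), log_pow]
    push_cast
    exact hk2
  have hfinal : w ^ (A + 3 * δ) ≤ (H : ℝ) ^ (A / (2 * A - 1) + 3 * δ) := by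
    rw [hw, ← rpow_mul hH0.le]
    apply rpow_le_rpow_of_exponent_le hH'
    have h1 : 1 / (2 * A - 1) * (A + 3 * δ) = A / (2 * A - 1) + 3 * δ * (1 / (2 * A - 1)) := by
      field_simp
    rw [h1]
    have h2 : 1 / (2 * A - 1) ≤ 1 := by rw [div_le_one hc]; linarith
    nlinarith
  have hwA0 : 0 ≤ w ^ (A + 3 * δ) := by positivity
  have htA0 : 0 ≤ t ^ (A + 1) := by positivity
  rcases Nat.eq_zero_or_pos k with hk0 | hk0
  · -- short intervals
    have h1 : (D.card : ℝ) ≤ H := by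
      have := card_le_card hDs
      rw [Nat.card_Ioc] at this
      have h2 : D.card ≤ H := by omega
      exact_mod_cast h2
    rw [hk0, pow_zero, one_mul] at hut
    have h2 : (H : ℝ) = w ^ A * w ^ (A - 1) := by
      rw [hHw, ← rpow_add hw0]
      congr 1
      ring
    have h3 : w ^ (A - 1) ≤ t ^ (A - 1) := rpow_le_rpow hw0.le hut.le (by linarith)
    have h4 : w ^ A ≤ w ^ (A + 3 * δ) := rpow_le_rpow_of_exponent_le hw1 (by linarith)
    have h5 : t ^ (A - 1) ≤ t ^ (A + 1) := rpow_le_rpow_of_exponent_le ht1 (by linarith)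
    calc (D.card : ℝ) ≤ w ^ A * w ^ (A - 1) := by rw [← h2]; exact h1
      _ ≤ w ^ (A + 3 * δ) * t ^ (A + 1) :=
          mul_le_mul h4 (h3.trans h5) (by positivity) (by positivity)
      _ ≤ _ := mul_le_mul_of_nonneg_right hfinal htA0
  · set P := (PPf (Yf A b t)).card with hP
    have hkt : (k : ℝ) ≤ t := by
      have h1 : (k : ℝ) * 1 ≤ k * log t := mul_le_mul_of_nonneg_left hlt1 (Nat.cast_nonneg _)
      linarith
    obtain ⟨K, m, hm, hKm, hrest, hkK, hmt, h2K⟩ := params hg hε hε1 k hk0 hkt P hg.Plo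
    set y := ⌈Yf A b t⌉₊ with hy
    have hPpos : 0 < P := by
      have h1 : (1 : ℝ) ≤ t ^ (A - δ) := one_le_rpow ht1 (by linarith)
      have := h1.trans hg.Plo
      exact_mod_cast this
    have hYpos : 0 < Yf A b t := by
      obtain ⟨p, hp⟩ := card_pos.1 hPpos
      rw [mem_PPf] at hp
      exact lt_of_le_of_lt (Nat.cast_nonneg _) hp.1
    have hy1 : 1 ≤ y := Nat.ceil_pos.2 hYpos
    have hyt : (y : ℝ) ≤ t ^ (A + δ) := by
      have := Nat.ceil_lt_add_one hYpos.le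
      exact this.le.trans hg.Yhi
    have key := mainA (PPf (Yf A b t)) y hy1 (fun p hp => (mem_PPf.1 hp).2.1)
      (fun p hp => (mem_PPf.1 hp).2.2) (fun p hp => by
        have h1 : (p : ℝ) ≤ y := (mem_PPf.1 hp).1.le.trans (Nat.le_ceil _)
        exact_mod_cast h1) ε hε K m k hm hKm hrest hkK x H D hDs hD
    have hlogy : 0 ≤ log (y : ℝ) := log_natCast_nonneg y
    have hy0 : (0 : ℝ) < y := by exact_mod_cast hy1
    have h1 := reduceA (A := A) ht0 hε hg.G K m k hm hmt h2K (D.card : ℝ) H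
      (8 * (y : ℝ) ^ k * (1 + 2 * k * log y)) hH0.le (by positivity) key
    set u : ℝ := t ^ k with hu_def
    have hu0 : 0 < u := by positivity
    have hexp : 0 ≤ A - 1 - 3 * δ := by linarith
    have h2 : u ^ (-(A - 1 - 3 * δ)) ≤ w ^ (-(A - 1 - 3 * δ)) * t ^ (A - 1) := by
      have h3 : w / t ≤ u := by
        rw [div_le_iff₀ ht0]
        exact hut.le
      have h4 : u ^ (-(A - 1 - 3 * δ)) ≤ (w / t) ^ (-(A - 1 - 3 * δ)) :=
        rpow_le_rpow_of_nonpos (by positivity) h3 (by linarith)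
      refine h4.trans ?_
      rw [div_rpow hw0.le ht0.le, div_eq_mul_inv, ← rpow_neg ht0.le, neg_neg]
      refine mul_le_mul_of_nonneg_left ?_ (by positivity)
      exact rpow_le_rpow_of_exponent_le ht1 (by linarith)
    have h5 : (H : ℝ) * u ^ (-(A - 1 - 3 * δ)) ≤ w ^ (A + 3 * δ) * t ^ (A - 1) := by
      calc (H : ℝ) * u ^ (-(A - 1 - 3 * δ)) ≤
          (H : ℝ) * (w ^ (-(A - 1 - 3 * δ)) * t ^ (A - 1)) :=
            mul_le_mul_of_nonneg_left h2 hH0.le
        _ = (w ^ (2 * A - 1) * w ^ (-(A - 1 - 3 * δ))) * t ^ (A - 1) := by rw [← hHw]; ring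
        _ = w ^ (A + 3 * δ) * t ^ (A - 1) := by
            rw [← rpow_add hw0]
            congr 2
            ring
    have h6 : (y : ℝ) ^ k ≤ u ^ (A + δ) := by
      have e3 : u ^ (A + δ) = (t ^ (A + δ)) ^ k := by
        rw [hu_def, ← rpow_natCast (t ^ (A + δ)) k, ← rpow_mul ht0.le, ← rpow_natCast t k,
          ← rpow_mul ht0.le, mul_comm (k : ℝ)]
      rw [e3]
      exact pow_le_pow_left₀ hy0.le hyt k
    have h7 : 2 * (k : ℝ) * log y ≤ 2 * (A + 1) * t := by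
      have h8 : log (y : ℝ) ≤ (A + δ) * log t := by
        have := log_le_log hy0 hyt
        rwa [log_rpow ht0] at this
      have h9 : (k : ℝ) * log y ≤ k * ((A + δ) * log t) :=
        mul_le_mul_of_nonneg_left h8 (Nat.cast_nonneg _)
      have h10 : (k : ℝ) * log t ≤ t := by linarith
      have h11 : (A + δ) * ((k : ℝ) * log t) ≤ (A + 1) * t :=
        mul_le_mul (by linarith) h10 (by positivity) (by linarith)
      nlinarith
    have h12 : u ^ δ * (8 * (y : ℝ) ^ k * (1 + 2 * k * log y)) ≤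
        w ^ (A + 3 * δ) * (8 * (1 + 2 * (A + 1) * t)) := by
      have h13 : u ^ δ * (y : ℝ) ^ k ≤ w ^ (A + 3 * δ) := by
        calc u ^ δ * (y : ℝ) ^ k ≤ u ^ δ * u ^ (A + δ) :=
              mul_le_mul_of_nonneg_left h6 (by positivity)
          _ = u ^ (A + 2 * δ) := by
              rw [← rpow_add hu0]
              congr 1
              ring
          _ ≤ w ^ (A + 2 * δ) := rpow_le_rpow hu0.le hu (by linarith)
          _ ≤ w ^ (A + 3 * δ) := rpow_le_rpow_of_exponent_le hw1 (by linarith)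
      calc u ^ δ * (8 * (y : ℝ) ^ k * (1 + 2 * k * log y)) =
          (u ^ δ * (y : ℝ) ^ k) * (8 * (1 + 2 * k * log y)) := by ring
        _ ≤ w ^ (A + 3 * δ) * (8 * (1 + 2 * (A + 1) * t)) :=
            mul_le_mul h13 (by linarith) (by positivity) (by positivity)
    calc (D.card : ℝ) ≤ 2 * (w ^ (A + 3 * δ) * t ^ (A - 1) +
          w ^ (A + 3 * δ) * (8 * (1 + 2 * (A + 1) * t))) := by
            refine h1.trans ?_
            linarith
      _ = w ^ (A + 3 * δ) * (2 * t ^ (A - 1) + 16 + 32 * (A + 1) * t) := by ring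
      _ ≤ w ^ (A + 3 * δ) * t ^ (A + 1) := mul_le_mul_of_nonneg_left hbig (by positivity)
      _ ≤ _ := mul_le_mul_of_nonneg_right hfinal htA0

end Pool.Agent.H568.SP
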