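import Pool.Agent.H568.SP.FinA
import Pool.Agent.H568.SP.CountB

set_option autoImplicit false

/-! # The full range, from the large sieve of Heath-Brown -/

namespace Pool.Agent.H568.SP

open Finset Filter Real Pool.Agent.H306R2.RZ

theorem finB {A b δ ε t C : ℝ} (hA : 1 < A) (hδ : 0 < δ) (hδ1 : δ ≤ 1) (hδA : 3 * δ < A - 1)
    (hε : 0 < ε) (hε1 : ε ≤ 1) (hg : Good A b δ ε t) (hC : 0 < C)
    (hbig : 12 * C * (2 : ℝ) ^ δ * t ^ (A - 1) ≤ exp (δ * t)) (hlt : (A + δ) * log t ≤ t)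
    (x : ℕ) (hx1 : 1 ≤ x) (hx : t = log x)
    (hLS : LSB (2 * x) x (C * (((2 * x : ℕ) : ℝ) * x) ^ δ * ((2 * x : ℕ) + x)))
    (D : Finset ℕ) (hDs : D ⊆ sqf (2 * x))
    (hD : ∀ n ∈ D, ε * ((PPf (Yf A b t)).card : ℝ) ≤
      |∑ p ∈ PPf (Yf A b t), ((jacobiSym (-(n : ℤ)) p : ℤ) : ℝ)|) :
    (D.card : ℝ) ≤ (x : ℝ) ^ (1 / A + 7 * δ) := by
  have ht1 := hg.t1
  have hlt1 := hg.lt1
  have ht0 : 0 < t := by linarith
  have hx' : (1 : ℝ) ≤ x := by exact_mod_cast hx1
  have hx0 : (0 : ℝ) < x := by linarith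
  have hA0 : 0 < A := by linarith
  have hAδ : 0 < A + δ := by linarith
  have hlogt0 : 0 < log t := by linarith
  have hxt : (x : ℝ) = exp t := by rw [hx, exp_log hx0]
  set k := ⌊t / ((A + δ) * log t)⌋₊ with hk
  have hk1 : (k : ℝ) * ((A + δ) * log t) ≤ t := by
    have := Nat.floor_le (show 0 ≤ t / ((A + δ) * log t) by positivity)
    rw [le_div_iff₀ (by positivity)] at this
    exact this
  have hk2 : t < (k + 1) * ((A + δ) * log t) := by
    have := Nat.lt_floor_add_one (t / ((A + δ) * log t))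
    rw [div_lt_iff₀ (by positivity)] at this
    exact this
  have hk0 : 1 ≤ k := by
    rw [hk, Nat.one_le_floor_iff, le_div_iff₀ (by positivity)]
    linarith
  set P := (PPf (Yf A b t)).card with hP
  have hkt : (k : ℝ) ≤ t := by
    have h1 : (k : ℝ) * 1 ≤ k * ((A + δ) * log t) :=
      mul_le_mul_of_nonneg_left (by nlinarith) (Nat.cast_nonneg _)
    linarith
  obtain ⟨K, m, hm, hKm, hrest, hkK, hmt, h2K⟩ := params hg hε hε1 k hk0 hkt P hg.Plo
  set y := ⌈Yf A b t⌉₊ with hy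
  have hPpos : 0 < P := by
    have h1 : (1 : ℝ) ≤ t ^ (A - δ) := one_le_rpow ht1 (by linarith)
    have := h1.trans hg.Plo
    exact_mod_cast this
  have hYpos : 0 < Yf A b t := by
    obtain ⟨p, hp⟩ := card_pos.1 hPpos
    rw [mem_PPf] at hp
    exact lt_of_le_of_lt (Nat.cast_nonneg _) hp.1
  have hy1 : 1 ≤ y := Nat.ceil_pos.2 hYpos
  have hyt : (y : ℝ) ≤ t ^ (A + δ) := by
    have := Nat.ceil_lt_add_one hYpos.le
    exact this.le.trans hg.Yhi
  have hykx : y ^ k ≤ x := by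
    have h1 : (y : ℝ) ^ k ≤ x := by
      calc (y : ℝ) ^ k ≤ (t ^ (A + δ)) ^ k := pow_le_pow_left₀ (Nat.cast_nonneg _) hyt k
        _ = exp ((k : ℝ) * ((A + δ) * log t)) := by
            rw [← rpow_natCast (t ^ (A + δ)) k, ← rpow_mul ht0.le, rpow_def_of_pos ht0]
            congr 1
            ring
        _ ≤ exp t := exp_le_exp.2 hk1
        _ = x := hxt.symm
    exact_mod_cast h1
  set B : ℝ := C * (((2 * x : ℕ) : ℝ) * x) ^ δ * ((2 * x : ℕ) + x) with hBdef
  have hB0 : 0 ≤ B := by positivity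
  have key := mainB (PPf (Yf A b t)) y (fun p hp => (mem_PPf.1 hp).2.1)
    (fun p hp => (mem_PPf.1 hp).2.2) (fun p hp => by
      have h1 : (p : ℝ) ≤ y := (mem_PPf.1 hp).1.le.trans (Nat.le_ceil _)
      exact_mod_cast h1) ε hε K m k hm hKm hrest hkK (2 * x) x hykx B hLS hB0 D hDs hD
  have h1 := reduceA (A := A) ht0 hε hg.G K m k hm hmt h2K (D.card : ℝ) B 0 hB0 le_rfl
    (by rw [mul_zero, add_zero]; exact key)
  rw [mul_zero, add_zero] at h1
  have hexp : 0 ≤ A - 1 - 3 * δ := by linarith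
  have h2 : exp (t / (A + δ)) / t ≤ t ^ k := by
    rw [div_le_iff₀ ht0, ← pow_succ]
    calc exp (t / (A + δ)) ≤ exp (((k + 1 : ℕ) : ℝ) * log t) := by
          apply exp_le_exp.2
          rw [div_le_iff₀ hAδ]
          push_cast
          nlinarith
      _ = t ^ (k + 1) := by
          rw [← rpow_natCast t (k + 1), rpow_def_of_pos ht0]
          congr 1
          ring
  have h3 : (t ^ k) ^ (-(A - 1 - 3 * δ)) ≤ exp (-(A - 1 - 3 * δ) * t / (A + δ)) * t ^ (A - 1) := by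
    have h4 : (t ^ k) ^ (-(A - 1 - 3 * δ)) ≤ (exp (t / (A + δ)) / t) ^ (-(A - 1 - 3 * δ)) :=
      rpow_le_rpow_of_nonpos (by positivity) h2 (by linarith)
    refine h4.trans ?_
    rw [div_rpow (exp_pos _).le ht0.le, div_eq_mul_inv, ← rpow_neg ht0.le, neg_neg, ← exp_mul]
    have h5 : t / (A + δ) * -(A - 1 - 3 * δ) = -(A - 1 - 3 * δ) * t / (A + δ) := by ring
    rw [h5]
    refine mul_le_mul_of_nonneg_left ?_ (by positivity)
    exact rpow_le_rpow_of_exponent_le ht1 (by linarith)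
  have h4 : B ≤ 6 * C * (2 : ℝ) ^ δ * exp ((1 + 2 * δ) * t) := by
    have e1 : (((2 * x : ℕ) : ℝ) * x) ^ δ = 2 ^ δ * exp (2 * δ * t) := by
      push_cast
      rw [hxt, mul_assoc, ← exp_add, mul_rpow (by norm_num) (exp_pos _).le, ← exp_mul]
      congr 2
      ring
    have e2 : (((2 * x : ℕ) : ℝ) + x) = 3 * exp t := by
      push_cast
      rw [hxt]
      ring
    rw [hBdef, e1, e2]
    have e3 : exp ((1 + 2 * δ) * t) = exp (2 * δ * t) * exp t := by
      rw [← exp_add]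
      congr 1
      ring
    rw [e3]
    have : 0 ≤ C * 2 ^ δ * exp (2 * δ * t) * exp t := by positivity
    nlinarith
  have h5 : (1 + 2 * δ) * t + -(A - 1 - 3 * δ) * t / (A + δ) ≤ (1 / A + 6 * δ) * t := by
    have e1 : 0 ≤ (1 / A + 4 * δ - 1 + (A - 1 - 3 * δ) / (A + δ)) := by
      have e2 : 1 / A + 4 * δ - 1 + (A - 1 - 3 * δ) / (A + δ) =
          (4 * δ * A * (A + δ) - 4 * A * δ + δ) / (A * (A + δ)) := by
        field_simp
        ring
      rw [e2]
      apply div_nonneg _ (by positivity)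
      nlinarith [mul_pos hδ hA0, mul_pos (mul_pos hδ hA0) (show 0 < A + δ - 1 by linarith)]
    have e3 : (1 / A + 6 * δ) * t - ((1 + 2 * δ) * t + -(A - 1 - 3 * δ) * t / (A + δ)) =
        (1 / A + 4 * δ - 1 + (A - 1 - 3 * δ) / (A + δ)) * t := by ring
    have e4 : 0 ≤ (1 / A + 4 * δ - 1 + (A - 1 - 3 * δ) / (A + δ)) * t := mul_nonneg e1 ht0.le
    linarith
  calc (D.card : ℝ) ≤ 2 * (B * (t ^ k) ^ (-(A - 1 - 3 * δ))) := h1
    _ ≤ 2 * ((6 * C * (2 : ℝ) ^ δ * exp ((1 + 2 * δ) * t)) *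
        (exp (-(A - 1 - 3 * δ) * t / (A + δ)) * t ^ (A - 1))) := by
          refine mul_le_mul_of_nonneg_left ?_ (by norm_num)
          exact mul_le_mul h4 h3 (by positivity) (by positivity)
    _ = (12 * C * (2 : ℝ) ^ δ * t ^ (A - 1)) *
          exp ((1 + 2 * δ) * t + -(A - 1 - 3 * δ) * t / (A + δ)) := by
          rw [exp_add]
          ring
    _ ≤ exp (δ * t) * exp ((1 / A + 6 * δ) * t) :=
          mul_le_mul hbig (exp_le_exp.2 h5) (exp_pos _).le (exp_pos _).le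
    _ = (x : ℝ) ^ (1 / A + 7 * δ) := by
          rw [← exp_add, hxt, ← exp_mul]
          congr 1
          ring

end Pool.Agent.H568.SP
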