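import Pool.Agent.H379R2.W.JChar
import Pool.Agent.H38R2.CG.PV

set_option autoImplicit false

/-! # Second moments of products of character sums over blocks of primes -/

namespace Pool.Agent.H568.SP

open Finset

/-- Pólya-Vinogradov for the Jacobi symbol -/
theorem jac_sum_le (M : ℕ) (hM : 2 ≤ M) (hne : ∃ a : ℕ, jacobiSym (a : ℤ) M = -1) (N : ℕ) :
    |∑ n ∈ Icc 1 N, ((jacobiSym (n : ℤ) M : ℤ) : ℝ)| ≤ 4 * Real.sqrt M * (1 + Real.log M) := by
  have hNZ : NeZero M := ⟨by omega⟩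
  have hχ1 : Pool.Agent.H379R2.W.jchar M ≠ 1 := by
    intro h
    obtain ⟨a, ha⟩ := hne
    have h1 := Pool.Agent.H379R2.W.jchar_apply M a
    rw [h, ha] at h1
    have h2 : IsUnit (a : ZMod M) := by
      rw [ZMod.isUnit_iff_coprime]
      by_contra hc
      have : jacobiSym (a : ℤ) M = 0 := by
        rw [jacobiSym.eq_zero_iff_not_coprime, Int.gcd_natCast_natCast]
        exact hc
      rw [this] at ha
      norm_num at ha
    rw [MulChar.one_apply h2] at h1
    norm_num at h1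
  have h1 := Pool.Agent.H38R2.CG.PVh.sum_le M (Pool.Agent.H379R2.W.jchar M) hM hχ1 N
  have h2 : ∑ n ∈ Icc 1 N, Pool.Agent.H379R2.W.jchar M (n : ZMod M) =
      ((∑ n ∈ Icc 1 N, ((jacobiSym (n : ℤ) M : ℤ) : ℝ) : ℝ) : ℂ) := by
    push_cast
    exact sum_congr rfl fun n _ => by rw [Pool.Agent.H379R2.W.jchar_apply]
  rw [h2, Complex.norm_real] at h1
  exact h1

theorem jac_abs_le (a : ℤ) (M : ℕ) : |((jacobiSym a M : ℤ) : ℝ)| ≤ 1 := by
  have := Pool.Agent.H379R2.W.jacobi_natAbs_le a M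
  exact_mod_cast this

/-- in an interval, with a sign -/
theorem jac_Ioc_le (M : ℕ) (hM : 2 ≤ M) (hne : ∃ a : ℕ, jacobiSym (a : ℤ) M = -1) (x H : ℕ) :
    |∑ n ∈ Ioc x (x + H), ((jacobiSym (-(n : ℤ)) M : ℤ) : ℝ)| ≤
      8 * Real.sqrt M * (1 + Real.log M) := by
  have h1 : ∀ n : ℕ, ((jacobiSym (-(n : ℤ)) M : ℤ) : ℝ) =
      ((jacobiSym (-1) M : ℤ) : ℝ) * ((jacobiSym (n : ℤ) M : ℤ) : ℝ) := by
    intro n
    rw [show (-(n : ℤ)) = (-1) * (n : ℤ) by ring, jacobiSym.mul_left]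
    push_cast
    ring
  simp_rw [h1]
  rw [← mul_sum, abs_mul]
  have h2 : ∑ n ∈ Ioc x (x + H), ((jacobiSym (n : ℤ) M : ℤ) : ℝ) =
      ∑ n ∈ Icc 1 (x + H), ((jacobiSym (n : ℤ) M : ℤ) : ℝ) -
        ∑ n ∈ Icc 1 x, ((jacobiSym (n : ℤ) M : ℤ) : ℝ) := by
    have h3 : ∀ m : ℕ, Icc 1 m = Ioc 0 m := fun m => by
      ext z; simp [mem_Icc, mem_Ioc, Nat.succ_le_iff]
    rw [h3, h3, eq_sub_iff_add_eq, add_comm]
    exact sum_Ioc_consecutive _ (Nat.zero_le x) (by omega)
  rw [h2]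
  have h4 := jac_sum_le M hM hne (x + H)
  have h5 := jac_sum_le M hM hne x
  have h6 := jac_abs_le (-1) M
  calc |((jacobiSym (-1) M : ℤ) : ℝ)| * |∑ n ∈ Icc 1 (x + H), ((jacobiSym (n : ℤ) M : ℤ) : ℝ) -
        ∑ n ∈ Icc 1 x, ((jacobiSym (n : ℤ) M : ℤ) : ℝ)| ≤
      1 * (4 * Real.sqrt M * (1 + Real.log M) + 4 * Real.sqrt M * (1 + Real.log M)) := by
        refine mul_le_mul h6 ((abs_sub _ _).trans (add_le_add h4 h5)) (abs_nonneg _) zero_le_one
    _ = _ := by ring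

section

variable {ι : Type} [Fintype ι] [DecidableEq ι] {m : ℕ}

/-- the product of the chosen primes -/
def sg (f : ι → Fin m → ℕ) (g : ι → Fin m) : ℕ := ∏ i, f i (g i)

/-- the hypotheses on the family of primes -/
structure Fam (f : ι → Fin m → ℕ) (y : ℕ) : Prop where
  pr : ∀ i j, (f i j).Prime
  odd : ∀ i j, f i j ≠ 2
  le : ∀ i j, f i j ≤ y
  inj : ∀ i j i' j', f i j = f i' j' → i = i' ∧ j = j'

variable {f : ι → Fin m → ℕ} {y : ℕ}

theorem sg_sqf (hf : Fam f y) (g : ι → Fin m) : Squarefree (sg f g) := by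
  unfold sg
  apply Finset.squarefree_prod_of_pairwise_isCoprime
  · intro i _ i' _ hii
    show IsRelPrime _ _
    rw [← Nat.coprime_iff_isRelPrime, Nat.coprime_primes (hf.pr _ _) (hf.pr _ _)]
    intro h
    exact hii (hf.inj _ _ _ _ h).1
  · intro i _
    exact (hf.pr _ _).prime.squarefree

theorem sg_odd (hf : Fam f y) (g : ι → Fin m) : Odd (sg f g) := by
  unfold sg
  apply Finset.prod_induction _ Odd (fun a b ha hb => ha.mul hb) odd_one
  intro i _
  exact (hf.pr _ _).odd_of_ne_two (hf.odd _ _)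

theorem sg_inj (hf : Fam f y) {g g' : ι → Fin m} (h : sg f g = sg f g') : g = g' := by
  funext i
  have h1 : f i (g i) ∣ sg f g' := by
    rw [← h]
    exact Finset.dvd_prod_of_mem (fun i => f i (g i)) (mem_univ i)
  unfold sg at h1
  obtain ⟨i', _, h2⟩ := ((hf.pr i (g i)).prime.dvd_finsetProd_iff _).1 h1
  have h3 := (Nat.prime_dvd_prime_iff_eq (hf.pr _ _) (hf.pr _ _)).1 h2
  obtain ⟨h4, h5⟩ := hf.inj _ _ _ _ h3
  subst h4
  exact h5

theorem sg_pos (hf : Fam f y) (g : ι → Fin m) : 0 < sg f g :=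
  Finset.prod_pos fun i _ => (hf.pr _ _).pos

theorem sg_le (hf : Fam f y) (g : ι → Fin m) : sg f g ≤ y ^ Fintype.card ι := by
  unfold sg
  calc ∏ i, f i (g i) ≤ ∏ _i : ι, y := Finset.prod_le_prod' fun i _ => hf.le _ _
    _ = y ^ Fintype.card ι := by rw [Finset.prod_const, Finset.card_univ]

theorem jac_sg (hf : Fam f y) (g : ι → Fin m) (d : ℤ) :
    ∏ i, jacobiSym d (f i (g i)) = jacobiSym d (sg f g) := by
  unfold sg
  have : ∀ s : Finset ι, ∏ i ∈ s, jacobiSym d (f i (g i)) = jacobiSym d (∏ i ∈ s, f i (g i)) := by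
    intro s
    induction s using Finset.induction_on with
    | empty => simp
    | insert a s ha ih =>
      rw [prod_insert ha, prod_insert ha, jacobiSym.mul_right' _ (hf.pr _ _).ne_zero
        (Finset.prod_ne_zero_iff.2 fun i _ => (hf.pr _ _).ne_zero), ih]
  exact this univ

/-- the product of the sums over the blocks -/
def BP (f : ι → Fin m → ℕ) (d : ℤ) : ℝ := ∏ i, ∑ j, ((jacobiSym d (f i j) : ℤ) : ℝ)

theorem BP_eq (hf : Fam f y) (d : ℤ) :
    BP f d = ∑ g : ι → Fin m, ((jacobiSym d (sg f g) : ℤ) : ℝ) := by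
  unfold BP
  rw [Finset.prod_univ_sum, Fintype.piFinset_univ]
  refine sum_congr rfl fun g _ => ?_
  rw [← jac_sg hf]
  push_cast
  rfl

theorem momA (hf : Fam f y) (hy : 1 ≤ y) (x H : ℕ) :
    ∑ n ∈ Ioc x (x + H), BP f (-(n : ℤ)) ^ 2 ≤
      (H : ℝ) * (m : ℝ) ^ Fintype.card ι + ((m : ℝ) ^ Fintype.card ι) ^ 2 *
        (8 * (y : ℝ) ^ Fintype.card ι * (1 + 2 * Fintype.card ι * Real.log y)) := by
  classical
  set k := Fintype.card ι with hk
  set E : ℝ := 8 * (y : ℝ) ^ k * (1 + 2 * k * Real.log y) with hE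
  have hlogy : 0 ≤ Real.log y := Real.log_natCast_nonneg y
  have hE0 : 0 ≤ E := by positivity
  have h1 : ∀ n : ℕ, BP f (-(n : ℤ)) ^ 2 = ∑ g : ι → Fin m, ∑ g' : ι → Fin m,
      ((jacobiSym (-(n : ℤ)) (sg f g * sg f g') : ℤ) : ℝ) := by
    intro n
    rw [BP_eq hf, sq, Finset.sum_mul_sum]
    refine sum_congr rfl fun g _ => sum_congr rfl fun g' _ => ?_
    rw [jacobiSym.mul_right' _ (sg_pos hf g).ne' (sg_pos hf g').ne']
    push_cast
    rfl
  simp_rw [h1]
  rw [sum_comm]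
  have hcard : ((univ : Finset (ι → Fin m)).card : ℝ) = (m : ℝ) ^ k := by
    rw [card_univ, Fintype.card_fun, Fintype.card_fin]
    push_cast
    rfl
  have h2 : ∀ g g' : ι → Fin m, ∑ n ∈ Ioc x (x + H),
      ((jacobiSym (-(n : ℤ)) (sg f g * sg f g') : ℤ) : ℝ) ≤ (if g = g' then (H : ℝ) else 0) + E := by
    intro g g'
    split_ifs with h
    · refine le_trans (b := (H : ℝ)) ?_ (by linarith)
      calc ∑ n ∈ Ioc x (x + H), ((jacobiSym (-(n : ℤ)) (sg f g * sg f g') : ℤ) : ℝ) ≤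
          ∑ _n ∈ Ioc x (x + H), (1 : ℝ) :=
            sum_le_sum fun n _ => (le_abs_self _).trans (jac_abs_le _ _)
        _ = H := by simp
    · rw [zero_add]
      have hne : sg f g ≠ sg f g' := fun h' => h (sg_inj hf h')
      have hex := Pool.Agent.H379R2.W.exists_neg_one (sg_sqf hf g) (sg_sqf hf g') (sg_odd hf g)
        (sg_odd hf g') hne
      have hM2 : 2 ≤ sg f g * sg f g' := by
        have a1 := sg_pos hf g
        have a2 := sg_pos hf g'
        rcases Nat.lt_or_gt_of_ne hne with h' | h'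
        · exact le_trans (by omega) (Nat.le_mul_of_pos_left _ a1)
        · exact le_trans (by omega) (Nat.le_mul_of_pos_right _ a2)
      have h3 := jac_Ioc_le _ hM2 hex x H
      refine (le_abs_self _).trans (h3.trans ?_)
      have hMle : ((sg f g * sg f g' : ℕ) : ℝ) ≤ ((y : ℝ) ^ k) ^ 2 := by
        have := Nat.mul_le_mul (sg_le hf g) (sg_le hf g')
        rw [← hk] at this
        rw [sq]
        exact_mod_cast this
      have hM0 : (0 : ℝ) < ((sg f g * sg f g' : ℕ) : ℝ) := by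
        exact_mod_cast Nat.mul_pos (sg_pos hf g) (sg_pos hf g')
      have h4 : Real.sqrt ((sg f g * sg f g' : ℕ) : ℝ) ≤ (y : ℝ) ^ k := by
        rw [Real.sqrt_le_left (by positivity)]
        exact hMle
      have h5 : Real.log ((sg f g * sg f g' : ℕ) : ℝ) ≤ 2 * k * Real.log y := by
        have := Real.log_le_log hM0 hMle
        rw [Real.log_pow, Real.log_pow] at this
        push_cast at this ⊢
        linarith
      have h6 : 0 ≤ Real.log ((sg f g * sg f g' : ℕ) : ℝ) := Real.log_natCast_nonneg _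
      rw [hE]
      have h7 : 8 * Real.sqrt ((sg f g * sg f g' : ℕ) : ℝ) ≤ 8 * (y : ℝ) ^ k := by linarith
      exact mul_le_mul h7 (by linarith) (by linarith) (by positivity)
  calc ∑ g : ι → Fin m, ∑ n ∈ Ioc x (x + H), ∑ g' : ι → Fin m,
        ((jacobiSym (-(n : ℤ)) (sg f g * sg f g') : ℤ) : ℝ)
      = ∑ g : ι → Fin m, ∑ g' : ι → Fin m, ∑ n ∈ Ioc x (x + H),
        ((jacobiSym (-(n : ℤ)) (sg f g * sg f g') : ℤ) : ℝ) :=
        sum_congr rfl fun g _ => sum_comm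
    _ ≤ ∑ g : ι → Fin m, ∑ g' : ι → Fin m, ((if g = g' then (H : ℝ) else 0) + E) :=
        sum_le_sum fun g _ => sum_le_sum fun g' _ => h2 g g'
    _ = ∑ _g : ι → Fin m, ((H : ℝ) + (m : ℝ) ^ k * E) := by
        refine sum_congr rfl fun g _ => ?_
        rw [sum_add_distrib, sum_ite_eq, if_pos (mem_univ g), sum_const, nsmul_eq_mul, hcard]
    _ = (m : ℝ) ^ k * ((H : ℝ) + (m : ℝ) ^ k * E) := by
        rw [sum_const, nsmul_eq_mul, hcard]
    _ = _ := by ring

end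

end Pool.Agent.H568.SP
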